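import Pool.Agent.R583.UP.Main

/-!
# An ultrapower of the power set of `ω` which is not universal

Let `W` be the set `2 ^ ω` and let `K` be a set with `|K| ^ 𝔠 = |K|`. We force with the product of
the set of the countable partial functions from `K × W` to `W` and of the measure algebra which adds
`|K|` random reals. A maximal centred family of names of the random extension names a nonprincipal
ultrafilter `U` of the random extension; it remains an ultrafilter in the extension, because the
countable partial functions add no real. The `j`-th generic function defines a subset `S j` of `W`.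
Order `W ⊔ K` by: `ξ < j` if `ξ ∈ S j`. If there were an embedding in the ultrapower modulo `U`, its
restriction to `W` would not depend on the generic functions with index outside of a set of size `𝔠`;
for such an index `j` the value at `j` is decided by a countable condition, and so all but
countably many values of the characteristic function of `S j` would be decided without using the
`j`-th generic function.

The forcing language is that of `Pool.Agent.TH773.PSet.Defs`: a sentence is a set of conditions, and
`p ∈ φ` says that `p` forces `φ`.
-/

set_option autoImplicit false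

open Cardinal Pool.Agent.R583.UP

namespace Pool.Agent.Results.MP_6b029b_lc.NonUniversal

/-- It is consistent that for some nonprincipal ultrafilter `u` on `ω` the ultrapower of
`(𝒫(ω), ⊆)` modulo `u` is not universal for the partially ordered sets of cardinality `2 ^ ℵ₀`.

(1) For every set `K` with `|K| ^ 𝔠 = |K|` some nonempty forcing forces the sentence
`Model (2 ^ ω) K`.
(2) There is such a set `K`.
(3) The meaning of the sentence `Model W Y` (its value over the trivial forcing) is that the
continuum is `|Y|`, that `2 ^ |W| ≤ 𝔠`, and that for some nonprincipal ultrafilter `u` there is a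
partial order of `Y` such that `Y` has no order embedding in the ultrapower modulo `u`.
(4) So it implies that the ultrapower modulo `u` is not universal for cardinality `𝔠`. -/
theorem result :
    (∀ K : Type, 2 ≤ #K → #K ^ (𝔠 : Cardinal.{0}) = #K →
      ∃ (P : Type) (_ : Preorder P), Nonempty P ∧ ∀ p : P, p ∈ Model P (ℕ → Bool) K) ∧
    (∃ K : Type, 2 ≤ #K ∧ #K ^ (𝔠 : Cardinal.{0}) = #K) ∧
    (∀ (W Y : Type) (p : Unit), p ∈ Model Unit W Y ↔
      (#Y = 𝔠 ∧ 2 ^ #W ≤ (𝔠 : Cardinal.{0}) ∧ ∃ u : Ultrafilter ℕ, (∀ n, u ≠ pure n) ∧
        ∃ _ : PartialOrder Y, IsEmpty (Y ↪o Filter.Germ (u : Filter ℕ) (Set ℕ)))) ∧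
    (∀ (W Y : Type) (p : Unit), p ∈ Model Unit W Y →
      ∃ u : Ultrafilter ℕ, (∀ n, u ≠ pure n) ∧
        ¬ Universal 𝔠 (Filter.Germ (u : Filter ℕ) (Set ℕ))) := by
  refine ⟨fun K h2 hK => ?_, exists_set, fun W Y p => unit_model, fun W Y p => not_universal⟩
  have hne : Nonempty K := by
    rw [← mk_ne_zero_iff]
    intro h
    rw [h] at h2
    exact absurd h2 (by norm_num)
  refine ⟨Pool.Agent.R592.Hd.Add K (ℕ → Bool) × Pool.Agent.TH773.PSet.Random K, inferInstance, ?_,
    mem_model h2 hK⟩
  refine ⟨(Pool.Agent.R592.Hd.emp fun t => t.2, ⟨Set.univ, MeasurableSet.univ, ?_⟩)⟩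
  simp

end Pool.Agent.Results.MP_6b029b_lc.NonUniversal
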